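import Mathlib

namespace Pool.Agent.Results.MP_9978f8_co.Lower

open Finset

variable {V : Type} [DecidableEq V]

/-- the neighbourhood `N(W)` -/
def Nbr (F : Finset (Finset V)) (W : Set V) : Set V :=
  {z | z ∉ W ∧ ∃ x ∈ W, ∃ y ∈ W, x ≠ y ∧ ({x, y, z} : Finset V) ∈ F}

/-- the closure: the smallest superset with empty neighbourhood -/
def cl (F : Finset (Finset V)) (S : Set V) : Set V := ⋂₀ {W | S ⊆ W ∧ Nbr F W = ∅}

/-- weakly spreading: the closure of the union of any at least two triples is everything -/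
def WeakSpread (F : Finset (Finset V)) : Prop :=
  ∀ F' ⊆ F, 2 ≤ F'.card → cl F (F'.biUnion id : Finset V) = Set.univ

def St (F : Finset (Finset V)) (v : V) : Finset (Finset V) := F.filter (fun e => v ∈ e)

lemma memSt {E : Finset (Finset V)} {v : V} {e : Finset V} : e ∈ St E v ↔ e ∈ E ∧ v ∈ e := by
  simp [St]

structure Sys (F : Finset (Finset V)) : Prop where
  h3 : ∀ T ∈ F, T.card = 3
  hl : ∀ e ∈ F, ∀ f ∈ F, ∀ u v, u ∈ e → v ∈ e → u ∈ f → v ∈ f → u ≠ v → e = f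
  hs : ∀ T1 ∈ F, ∀ T2 ∈ F, T1 ≠ T2 → ∀ W : Finset V, T1 ⊆ W → T2 ⊆ W → W.card ≤ 9 →
    ∃ T ∈ F, ∃ x ∈ W, ∃ y ∈ W, ∃ z, z ∉ W ∧ x ≠ y ∧ x ∈ T ∧ y ∈ T ∧ z ∈ T
  h1 : ∀ v, 1 ≤ (St F v).card

def Col (S : Finset (Finset V)) : Finset (V × V) := S.biUnion (fun T => T.offDiag)

def Ln (F : Finset (Finset V)) (x y : V) : Finset (Finset V) := F.filter (fun e => x ∈ e ∧ y ∈ e)

def Nb (F : Finset (Finset V)) (x : V) : Finset V := (St F x).biUnion (fun T => T.erase x)

variable {F : Finset (Finset V)}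

lemma col_card (h : Sys F) (S : Finset (Finset V)) (hS : S ⊆ F) : (Col S).card ≤ S.card * 6 :=
  card_biUnion_le_card_mul _ _ _ fun T hT => by rw [offDiag_card, h.h3 T (hS hT)]

lemma memCol {S : Finset (Finset V)} {T : Finset V} {x y : V} (h : T ∈ S) (hx : x ∈ T) (hy : y ∈ T)
    (n : x ≠ y) : (x, y) ∈ Col S := mem_biUnion.2 ⟨T, h, mem_offDiag.2 ⟨hx, hy, n⟩⟩

lemma ln_card (h : Sys F) {x y : V} (n : x ≠ y) : (Ln F x y).card ≤ 1 :=
  card_le_one.2 fun a ha b hb => by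
    simp only [Ln, mem_filter] at ha hb
    exact h.hl a ha.1 b hb.1 x y ha.2.1 ha.2.2 hb.2.1 hb.2.2 n

lemma nb_card (h : Sys F) (x : V) : (Nb F x).card ≤ (St F x).card * 2 :=
  card_biUnion_le_card_mul _ _ _ fun T hT => by
    rw [card_erase_of_mem (memSt.1 hT).2, h.h3 T (memSt.1 hT).1]

lemma memNb {T : Finset V} {x y : V} (h : T ∈ F) (hx : x ∈ T) (hy : y ∈ T) (n : y ≠ x) :
    y ∈ Nb F x := mem_biUnion.2 ⟨T, memSt.2 ⟨h, hx⟩, mem_erase.2 ⟨n, hy⟩⟩

lemma three {T : Finset V} (h : T.card = 3) {a b c w : V} (ha : a ∈ T) (hb : b ∈ T) (hc : c ∈ T)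
    (ab : a ≠ b) (ac : a ≠ c) (bc : b ≠ c) (hw : w ∈ T) : w = a ∨ w = b ∨ w = c := by
  have : ({a, b, c} : Finset V) = T := eq_of_subset_of_card_le
    (by simp [insert_subset_iff, ha, hb, hc]) (by rw [h, card_eq_three.2 ⟨a, b, c, ab, ac, bc, rfl⟩])
  rw [← this] at hw
  simpa using hw

lemma two {T T' : Finset V} {v : V} (h1 : T ∈ F) (h2 : T' ∈ F) (n : T ≠ T') (a : v ∈ T) (b : v ∈ T') :
    (St F v).card ≠ 1 := by
  have := one_lt_card.2 ⟨T, memSt.2 ⟨h1, a⟩, T', memSt.2 ⟨h2, b⟩, n⟩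
  omega

lemma P1 (h : Sys F) {T1 T2 : Finset V} (h1 : T1 ∈ F) (h2 : T2 ∈ F) (n : T1 ≠ T2) :
    ∃ T ∈ F, ∃ x y, x ∈ T1 ∧ x ∉ T2 ∧ y ∈ T2 ∧ y ∉ T1 ∧ x ∈ T ∧ y ∈ T ∧ T ≠ T1 ∧ T ≠ T2 := by
  obtain ⟨T, hT, x, hx, y, hy, z, hz, xy, a, b, c⟩ := h.hs T1 h1 T2 h2 n (T1 ∪ T2) subset_union_left
    subset_union_right ((card_union_le _ _).trans (by rw [h.h3 _ h1, h.h3 _ h2]; norm_num))
  have n1 : T ≠ T1 := fun k => hz (mem_union_left _ (k ▸ c))
  have n2 : T ≠ T2 := fun k => hz (mem_union_right _ (k ▸ c))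
  have e1 : x ∈ T1 → y ∉ T1 := fun p q => n1 (h.hl T hT T1 h1 x y a b p q xy)
  have e2 : x ∈ T2 → y ∉ T2 := fun p q => n2 (h.hl T hT T2 h2 x y a b p q xy)
  rw [mem_union] at hx hy
  by_cases k : x ∈ T1
  · exact ⟨T, hT, x, y, k, fun q => e2 q (hy.resolve_left (e1 k)), hy.resolve_left (e1 k), e1 k, a, b,
      n1, n2⟩
  · have k2 := hx.resolve_left k
    exact ⟨T, hT, y, x, hy.resolve_right (e2 k2), e2 k2, k2, k, b, a, n1, n2⟩

lemma deg_le (h : Sys F) (a : V) : (St F a).card * (St F a).card ≤ 7 * F.card := by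
  have s : (St F a).offDiag ⊆ ((Col F).filter (fun p => a ≠ p.1 ∧ a ≠ p.2)).biUnion
      (fun p => Ln F a p.1 ×ˢ Ln F a p.2) := by
    rintro ⟨T1, T2⟩ hp
    obtain ⟨a1, a2, n⟩ := mem_offDiag.1 hp
    obtain ⟨b1, c1⟩ := memSt.1 a1
    obtain ⟨b2, c2⟩ := memSt.1 a2
    obtain ⟨T, hT, x, y, x1, x2, y2, y1, xT, yT, -, -⟩ := P1 h b1 b2 n
    refine mem_biUnion.2 ⟨(x, y), mem_filter.2 ⟨memCol hT xT yT (fun k => x2 (k ▸ y2)),
      fun (k : a = x) => x2 (k ▸ c2), fun (k : a = y) => y1 (k ▸ c1)⟩, ?_⟩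
    simp only [Ln, mem_product, mem_filter]
    exact ⟨⟨b1, c1, x1⟩, b2, c2, y2⟩
  have := (card_le_card s).trans (card_biUnion_le_card_mul _ _ 1 fun p hp => by
    obtain ⟨-, n1, n2⟩ := mem_filter.1 hp
    rw [card_product]
    exact Nat.mul_le_mul (ln_card h n1) (ln_card h n2))
  have c1 := card_filter_le (Col F) (fun p => a ≠ p.1 ∧ a ≠ p.2)
  have c2 := col_card h F Subset.rfl
  have c3 : (St F a).card ≤ F.card := card_filter_le _ _
  rw [offDiag_card] at this
  omega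

lemma reach (h : Sys F) {D : ℕ} (hD : ∀ v, (St F v).card ≤ D) (S : Finset V) (t : ℕ)
    (ht : ∀ x ∈ S, (St F x).card ≤ t) :
    (S.biUnion (fun x => (Nb F x).biUnion (St F))).card ≤ S.card * (t * 2 * D) :=
  card_biUnion_le_card_mul _ _ _ fun x hx =>
    (card_biUnion_le_card_mul _ _ D fun y _ => hD y).trans
      (Nat.mul_le_mul_right _ ((nb_card h x).trans (Nat.mul_le_mul_right _ (ht x hx))))

lemma hub (h : Sys F) {D t : ℕ} (hD : ∀ v, (St F v).card ≤ D) (hm : 12 * (t * D) + 1 < F.card)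
    (T : Finset V) (hT : T ∈ F) : ∃ w ∈ T, 2 * t < (St F w).card := by
  by_contra k
  push Not at k
  have s : F.erase T ⊆ T.biUnion (fun x => (Nb F x).biUnion (St F)) := by
    intro T2 h2
    obtain ⟨n, h2⟩ := mem_erase.1 h2
    obtain ⟨T3, h3, x, y, x1, x2, y2, y1, xT, yT, -, -⟩ := P1 h hT h2 n.symm
    exact mem_biUnion.2 ⟨x, x1, mem_biUnion.2 ⟨y, memNb h3 xT yT (fun k => y1 (k ▸ x1)),
      memSt.2 ⟨h2, y2⟩⟩⟩
  have := (card_le_card s).trans (reach h hD T _ k)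
  rw [card_erase_of_mem hT, h.h3 T hT] at this
  have e : 3 * (2 * t * 2 * D) = 12 * (t * D) := by ring
  omega

lemma Q (h : Sys F) {D t : ℕ} (hD : ∀ v, (St F v).card ≤ D) (hm : 12 * (t * D) + 1 < F.card)
    (ht : 2 ≤ t) {T : Finset V} (hT : T ∈ F) {z x : V} (hz : z ∈ T) (d1 : (St F z).card = 1)
    (hx : x ∈ T) (n : x ≠ z) : t ≤ (St F x).card := by
  obtain ⟨w, hw, dw⟩ := hub h hD hm T hT
  by_cases c : w = x
  · subst c; omega
  have wz : w ≠ z := fun k => by subst k; omega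
  have s : (St F w).erase T ⊆ ((Nb F x).erase w).biUnion (fun y => Ln F w y) := by
    intro T2 h2
    obtain ⟨n2, h2⟩ := mem_erase.1 h2
    obtain ⟨h2, w2⟩ := memSt.1 h2
    obtain ⟨T3, h3, x', y, x1, x2, y2, y1, xT, yT, n3, -⟩ := P1 h hT h2 n2.symm
    rcases three (h.h3 T hT) hw hx hz c wz n x1 with k | k | k
    · exact (x2 (k ▸ w2)).elim
    · subst k
      exact mem_biUnion.2 ⟨y, mem_erase.2 ⟨fun k => y1 (k ▸ hw), memNb h3 xT yT (fun k => y1 (k ▸ x1))⟩,
        mem_filter.2 ⟨h2, w2, y2⟩⟩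
    · exact (two h3 hT n3 (k ▸ xT) hz d1).elim
  have := (card_le_card s).trans (card_biUnion_le_card_mul _ _ 1 fun y hy =>
    ln_card h (mem_erase.1 hy).1.symm)
  rw [card_erase_of_mem (memSt.2 ⟨hT, hw⟩)] at this
  have c1 := card_erase_le (s := Nb F x) (a := w)
  have c2 := nb_card h x
  omega

lemma dc (S : Finset (Finset V)) (W : Finset V) :
    ∑ v ∈ W, (St S v).card = ∑ T ∈ S, (W ∩ T).card := by
  simp only [St, card_filter]
  rw [sum_comm]
  exact sum_congr rfl fun e _ => by rw [← card_filter, filter_mem_eq_inter]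

lemma ineq [Fintype V] (h : Sys F) {D t : ℕ} (hD : ∀ v, (St F v).card ≤ D)
    (hm : 12 * (t * D) + 1 < F.card) (ht : 2 ≤ t) : ∃ a b r H : ℕ, a + b + r = F.card ∧
    H * t ≤ 3 * F.card ∧ 2 * Fintype.card V + r ≤ 2 * H + 2 * F.card ∧
    4 * (b * b) ≤ H * (3 * b + 6 * r * D) ∧ a * a ≤ a + 8 * (t * D) * a + 6 * (b + r) * (D * D) := by
  classical
  let H : Finset V := univ.filter (fun v => t ≤ (St F v).card)
  have mH : ∀ v, v ∈ H ↔ t ≤ (St F v).card := by simp [H]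
  let A := F.filter (fun T => (H ∩ T).card = 1)
  let A' := F.filter (fun T => ¬ (H ∩ T).card = 1)
  let B := A'.filter (fun T => ∃ z ∈ T, (St F z).card = 1)
  let R := A'.filter (fun T => ¬ ∃ z ∈ T, (St F z).card = 1)
  have e1 : A.card + A'.card = F.card := card_filter_add_card_filter_not _
  have e2 : B.card + R.card = A'.card := card_filter_add_card_filter_not _
  have hi : ∀ T ∈ F, ∀ x y, x ∈ T → y ∈ T → x ∈ H → y ∈ H → x ≠ y → T ∈ A' := by
    intro T hT x y a b c d n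
    have := one_lt_card.2 ⟨x, mem_inter.2 ⟨c, a⟩, y, mem_inter.2 ⟨d, b⟩, n⟩
    exact mem_filter.2 ⟨hT, by omega⟩
  have b2 : ∀ T ∈ F, ∀ z ∈ T, (St F z).card = 1 → 2 ≤ (H ∩ T).card := by
    intro T hT z hz d
    have : T.erase z ⊆ H ∩ T := fun x hx => mem_inter.2
      ⟨(mH x).2 (Q h hD hm ht hT hz d (mem_erase.1 hx).2 (mem_erase.1 hx).1), (mem_erase.1 hx).2⟩
    have := card_le_card this
    rwa [card_erase_of_mem hz, h.h3 T hT] at this
  have le3 : ∀ T ∈ F, (H ∩ T).card ≤ 3 := fun T hT => h.h3 T hT ▸ card_le_card inter_subset_right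
  have cm : ∀ T ∈ F, (Hᶜ ∩ T).card + (H ∩ T).card = 3 := fun T hT => by
    rw [← h.h3 T hT, ← card_sdiff_add_card_inter T H, inter_comm T H, inter_comm Hᶜ, sdiff_eq_inter_compl]
  have BF : ∀ T ∈ B, T ∈ F ∧ ∃ z ∈ T, (St F z).card = 1 := fun T hT =>
    ⟨(mem_filter.1 (mem_filter.1 hT).1).1, (mem_filter.1 hT).2⟩
  refine ⟨A.card, B.card, R.card, H.card, by omega, ?_, ?_, ?_, ?_⟩
  · calc H.card * t ≤ ∑ v ∈ H, (St F v).card := card_nsmul_le_sum _ _ _ fun v hv => (mH v).1 hv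
      _ ≤ F.card * 3 := by rw [dc]; exact sum_le_card_nsmul _ _ _ le3
      _ = _ := mul_comm _ _
  · have u : ∑ v ∈ Hᶜ, (St F v).card ≤ F.card + A.card := by
      rw [dc, card_eq_sum_ones F, card_filter, ← sum_add_distrib]
      refine sum_le_sum fun T hT => ?_
      obtain ⟨w, hw, dw⟩ := hub h hD hm T hT
      have := card_pos.2 ⟨w, mem_inter.2 ⟨(mH w).2 (by omega), hw⟩⟩
      have := cm T hT
      split_ifs <;> omega
    have o : (Hᶜ.filter (fun v => (St F v).card = 1)).card ≤ B.card * 1 := by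
      refine (card_le_card (t := B.biUnion (fun T => Hᶜ ∩ T)) fun v hv => ?_).trans
        (card_biUnion_le_card_mul _ _ _ fun T hT => ?_)
      · obtain ⟨a, b⟩ := mem_filter.1 hv
        obtain ⟨T, hT⟩ := card_pos.1 (show 0 < (St F v).card by omega)
        obtain ⟨c, d⟩ := memSt.1 hT
        have := b2 T c v d b
        exact mem_biUnion.2 ⟨T, mem_filter.2 ⟨mem_filter.2 ⟨c, by omega⟩, v, d, b⟩, mem_inter.2 ⟨a, d⟩⟩
      · obtain ⟨c, z, hz, d⟩ := BF T hT
        have := b2 T c z hz d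
        have := cm T c
        omega
    have l : Hᶜ.card * 2 ≤ ∑ v ∈ Hᶜ, (St F v).card + (Hᶜ.filter (fun v => (St F v).card = 1)).card := by
      rw [card_filter, ← sum_add_distrib]
      refine card_nsmul_le_sum Hᶜ _ 2 fun v _ => ?_
      have := h.h1 v
      split_ifs <;> omega
    have := card_add_card_compl H
    omega
  · have s1 : B.card * 2 ≤ ∑ v ∈ H, (St B v).card := by
      rw [dc]
      exact card_nsmul_le_sum _ _ _ fun T hT => by
        obtain ⟨c, z, hz, d⟩ := BF T hT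
        exact b2 T c z hz d
    have s2 : ∑ v ∈ H, (St B v).card ≤ B.card * 3 := by
      rw [dc]; exact sum_le_card_nsmul _ _ _ fun T hT => le3 T (BF T hT).1
    let X := H.sigma (fun v => (St B v).offDiag)
    have s3 : X.card ≤ (Col R).card * D := by
      refine (card_le_card (t := (Col R).biUnion (fun p => X.filter (fun ξ => p.1 ∈ ξ.2.1 ∧ p.1 ≠ ξ.1 ∧
        (St F p.1).card ≠ 1 ∧ p.2 ∈ ξ.2.2 ∧ p.2 ≠ ξ.1))) ?_).trans
        (card_biUnion_le_card_mul _ _ _ fun p _ => le_trans ?_ (hD p.1))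
      · rintro ⟨v, T1, T2⟩ hξ
        obtain ⟨hv, k⟩ := mem_sigma.1 hξ
        obtain ⟨a1, a2, n⟩ := mem_offDiag.1 k
        obtain ⟨a1, v1⟩ := memSt.1 a1
        obtain ⟨a2, v2⟩ := memSt.1 a2
        obtain ⟨c1, z1, hz1, d1⟩ := BF _ a1
        obtain ⟨c2, z2, hz2, d2⟩ := BF _ a2
        dsimp only at *
        obtain ⟨T, hT, x, y, x1, x2, y2, y1, xT, yT, n1, n2⟩ := P1 h c1 c2 n
        have dx := two hT c1 n1 xT x1
        have dy := two hT c2 n2 yT y2
        have xz : x ≠ z1 := fun k => dx (k ▸ d1)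
        have yz : y ≠ z2 := fun k => dy (k ▸ d2)
        have xy : x ≠ y := fun k => x2 (k ▸ y2)
        have xv : x ≠ v := fun k => x2 (k ▸ v2)
        have yv : y ≠ v := fun k => y1 (k ▸ v1)
        have dv := (mH v).1 hv
        have vz1 : v ≠ z1 := fun k => by subst k; omega
        have vz2 : v ≠ z2 := fun k => by subst k; omega
        refine mem_biUnion.2 ⟨(x, y), memCol (mem_filter.2 ⟨hi T hT x y xT yT
          ((mH x).2 (Q h hD hm ht c1 hz1 d1 x1 xz)) ((mH y).2 (Q h hD hm ht c2 hz2 d2 y2 yz)) xy, ?_⟩)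
          xT yT xy, mem_filter.2 ⟨hξ, x1, xv, dx, y2, yv⟩⟩
        rintro ⟨f, hf, df⟩
        obtain ⟨T4, h4, p, hp, q, hq, w, hw, pq, p4, q4, w4⟩ := h.hs T1 c1 T2 c2 n (T1 ∪ T2 ∪ T)
          (subset_union_left.trans subset_union_left) (subset_union_right.trans subset_union_left)
          ((card_union_le _ _).trans ((Nat.add_le_add_right (card_union_le _ _) _).trans
            (by rw [h.h3 _ c1, h.h3 _ c2, h.h3 _ hT])))
        simp only [mem_union, not_or] at hp hq hw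
        have m1 : T4 ≠ T1 := fun k => hw.1.1 (k ▸ w4)
        have m2 : T4 ≠ T2 := fun k => hw.1.2 (k ▸ w4)
        have m3 : T4 ≠ T := fun k => hw.2 (k ▸ w4)
        have cls : ∀ p ∈ T4, (p ∈ T1 ∨ p ∈ T2) ∨ p ∈ T → p = v ∨ p = x ∨ p = y := by
          rintro p p4 ((k | k) | k)
          · rcases three (h.h3 _ c1) v1 x1 hz1 xv.symm vz1 xz k with e | e | e
            · exact Or.inl e
            · exact Or.inr (Or.inl e)
            · exact (two h4 c1 m1 p4 k (e ▸ d1)).elim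
          · rcases three (h.h3 _ c2) v2 y2 hz2 yv.symm vz2 yz k with e | e | e
            · exact Or.inl e
            · exact Or.inr (Or.inr e)
            · exact (two h4 c2 m2 p4 k (e ▸ d2)).elim
          · rcases three (h.h3 _ hT) xT yT hf xy (fun k => dx (k ▸ df)) (fun k => dy (k ▸ df)) k with
              e | e | e
            · exact Or.inr (Or.inl e)
            · exact Or.inr (Or.inr e)
            · exact (two h4 hT m3 p4 k (e ▸ df)).elim
        have g1 : v ∈ T4 → x ∈ T4 → False := fun a b => m1 (h.hl _ h4 _ c1 v x a b v1 x1 xv.symm)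
        have g2 : v ∈ T4 → y ∈ T4 → False := fun a b => m2 (h.hl _ h4 _ c2 v y a b v2 y2 yv.symm)
        have g3 : x ∈ T4 → y ∈ T4 → False := fun a b => m3 (h.hl _ h4 _ hT x y a b xT yT xy)
        rcases cls p p4 hp with rfl | rfl | rfl <;> rcases cls q q4 hq with rfl | rfl | rfl <;> tauto
      · refine card_le_card_of_injOn (fun ξ => ξ.2.1) (fun ξ hξ => ?_) ?_
        · obtain ⟨k, k1, -⟩ := mem_filter.1 (mem_coe.1 hξ)
          exact mem_coe.2 (memSt.2 ⟨(BF _ (memSt.1 (mem_offDiag.1 (mem_sigma.1 k).2).1).1).1, k1⟩)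
        · rintro ⟨v, T1, T2⟩ hξ ⟨v', T1', T2'⟩ hξ' e
          obtain ⟨k, k1, k2, k3, k4, k5⟩ := mem_filter.1 (mem_coe.1 hξ)
          obtain ⟨k', -, k2', -, k4', k5'⟩ := mem_filter.1 (mem_coe.1 hξ')
          obtain ⟨hv, k⟩ := mem_sigma.1 k
          obtain ⟨hv', k'⟩ := mem_sigma.1 k'
          obtain ⟨a1, a2, -⟩ := mem_offDiag.1 k
          obtain ⟨a1', a2', -⟩ := mem_offDiag.1 k'
          dsimp only at *
          subst e
          obtain ⟨c1, z1, hz1, d1⟩ := BF _ (memSt.1 a1).1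
          have dv := (mH v).1 hv
          have dv' := (mH v').1 hv'
          have : v' = v := by
            rcases three (h.h3 _ c1) (memSt.1 a1).2 k1 hz1 k2.symm (fun k => by subst k; omega)
              (fun k => k3 (k ▸ d1)) (memSt.1 a1').2 with e | e | e
            · exact e
            · exact (k2' e.symm).elim
            · subst e; omega
          subst this
          rw [h.hl T2 (BF _ (memSt.1 a2).1).1 T2' (BF _ (memSt.1 a2').1).1 p.2 v' k4 (memSt.1 a2).2 k4'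
            (memSt.1 a2').2 k5]
    have s4 : ∑ v ∈ H, (St B v).card ^ 2 = X.card + ∑ v ∈ H, (St B v).card := by
      rw [card_sigma, ← sum_add_distrib]
      refine sum_congr rfl fun v _ => ?_
      rw [offDiag_card, sq, Nat.sub_add_cancel (Nat.le_mul_self _)]
    have s5 := sq_sum_le_card_mul_sum_sq (s := H) (f := fun v => (St B v).card)
    have s6 := col_card h R ((filter_subset _ _).trans (filter_subset _ _))
    calc 4 * (B.card * B.card) = (B.card * 2) ^ 2 := by ring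
      _ ≤ _ := Nat.pow_le_pow_left s1 2
      _ ≤ _ := s5
      _ ≤ _ := Nat.mul_le_mul_left _ (by
          rw [s4]; nlinarith [Nat.mul_le_mul_right D s6])
  · let G := fun T : Finset V => (Hᶜ ∩ T).biUnion (fun x => (Nb F x).biUnion (St F))
    have gc : ∀ T ∈ A, (G T).card ≤ 4 * (t * D) := by
      intro T hT
      obtain ⟨a, b⟩ := mem_filter.1 hT
      have := reach h hD (Hᶜ ∩ T) t (fun x hx => by
        have := mem_compl.1 (mem_inter.1 hx).1
        rw [mH] at this; omega)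
      have c := cm T a
      rw [show (Hᶜ ∩ T).card = 2 by omega] at this
      calc _ ≤ _ := this
        _ = _ := by ring
    have s : A.offDiag ⊆ (A.biUnion (fun T => (G T).image (fun T' => (T, T'))) ∪
        A.biUnion (fun T => (G T).image (fun T' => (T', T)))) ∪
        (Col A').biUnion (fun p => St F p.1 ×ˢ St F p.2) := by
      rintro ⟨T1, T2⟩ hp
      obtain ⟨a1, a2, n⟩ := mem_offDiag.1 hp
      have c1 := (mem_filter.1 a1).1
      have c2 := (mem_filter.1 a2).1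
      obtain ⟨T, hT, x, y, x1, x2, y2, y1, xT, yT, -, -⟩ := P1 h c1 c2 n
      have xy : x ≠ y := fun k => x2 (k ▸ y2)
      by_cases hx : x ∈ H
      · by_cases hy : y ∈ H
        · exact mem_union_right _ (mem_biUnion.2 ⟨(x, y), memCol (hi T hT x y xT yT hx hy xy) xT yT xy,
            mem_product.2 ⟨memSt.2 ⟨c1, x1⟩, memSt.2 ⟨c2, y2⟩⟩⟩)
        · exact mem_union_left _ (mem_union_right _ (mem_biUnion.2 ⟨T2, a2, mem_image.2 ⟨T1,
            mem_biUnion.2 ⟨y, mem_inter.2 ⟨mem_compl.2 hy, y2⟩, mem_biUnion.2 ⟨x, memNb hT yT xT xy,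
              memSt.2 ⟨c1, x1⟩⟩⟩, rfl⟩⟩))
      · exact mem_union_left _ (mem_union_left _ (mem_biUnion.2 ⟨T1, a1, mem_image.2 ⟨T2,
          mem_biUnion.2 ⟨x, mem_inter.2 ⟨mem_compl.2 hx, x1⟩, mem_biUnion.2 ⟨y, memNb hT xT yT xy.symm,
            memSt.2 ⟨c2, y2⟩⟩⟩, rfl⟩⟩))
    have u1 := card_biUnion_le_card_mul A (fun T => (G T).image (fun T' => (T, T'))) _
      fun T hT => card_image_le.trans (gc T hT)
    have u2 := card_biUnion_le_card_mul A (fun T => (G T).image (fun T' => (T', T))) _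
      fun T hT => card_image_le.trans (gc T hT)
    have u3 := card_biUnion_le_card_mul (Col A') (fun p => St F p.1 ×ˢ St F p.2) (D * D)
      fun p _ => by rw [card_product]; exact Nat.mul_le_mul (hD _) (hD _)
    have u4 := Nat.mul_le_mul_right (D * D) (col_card h A' (filter_subset _ _))
    have := (card_le_card s).trans ((card_union_le _ _).trans
      (Nat.add_le_add_right (card_union_le _ _) _))
    rw [offDiag_card] at this
    rw [e2]
    have f1 : A.card * (4 * (t * D)) + A.card * (4 * (t * D)) = 8 * (t * D) * A.card := by ring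
    have f2 : A'.card * 6 * (D * D) = 6 * A'.card * (D * D) := by ring
    omega

lemma arith (n m D t a b r H : ℝ) (hm : 10 ^ 25 ≤ m) (D1 : D * D ≤ 7 * m) (D2 : 6 * m ≤ D * D)
    (D3 : 10 ^ 12 * D ≤ m) (D0 : 0 < D) (t1 : 300 * t ≤ D) (t2 : D ≤ 400 * t) (a0 : 0 ≤ a)
    (b0 : 0 ≤ b) (r0 : 0 ≤ r) (H0 : 0 ≤ H) (e : a + b + r = m) (i0 : H * t ≤ 3 * m)
    (i1 : 2 * n + r ≤ 2 * H + 2 * m) (i2 : 4 * (b * b) ≤ H * (3 * b + 6 * r * D))
    (i3 : a * a ≤ a + 8 * (t * D) * a + 6 * (b + r) * (D * D)) : (1 + 1 / 10 ^ 9) * n ≤ m := by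
  have HD : H * D ≤ 1200 * m := by nlinarith
  have H2 : H ≤ 200 * D := by
    by_contra k
    push Not at k
    nlinarith
  have tD : 300 * (t * D) ≤ 7 * m := by nlinarith
  have br : m / 100 < b + r := by
    by_contra k
    push Not at k
    have a1 : 99 / 100 * m ≤ a := by linarith
    have c1 : 6 * (b + r) * (D * D) ≤ 6 * (m / 100) * (7 * m) := by gcongr
    have c2 : 8 * (t * D) * a ≤ 19 / 100 * m * a := mul_le_mul_of_nonneg_right (by linarith) a0
    have c3 : 99 / 100 * m * (79 / 100 * m) ≤ a * (a - 1 - 19 / 100 * m) := by gcongr; linarith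
    nlinarith
  have rr : m / (2 * 10 ^ 8) ≤ r := by
    by_contra k
    push Not at k
    have b1 : m / 200 ≤ b := by linarith
    have c1 : H * (3 * b) ≤ 2 * b * b := by nlinarith
    have c2 : H * (6 * r * D) ≤ 7200 * m * r := by nlinarith
    have c3 : m / 200 * (m / 200) ≤ b * b := by gcongr
    have c4 : 7200 * m * r < 7200 * m * (m / (2 * 10 ^ 8)) := by gcongr
    nlinarith
  nlinarith

theorem result : ∃ C : ℝ, 1 < C ∧ ∃ N : ℕ, ∀ n ≥ N, ∀ F : Finset (Finset (Fin n)),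
    (∀ T ∈ F, T.card = 3) → (∀ T ∈ F, ∀ T' ∈ F, T ≠ T' → (T ∩ T').card ≤ 1) → 2 ≤ F.card →
    WeakSpread F → C * n ≤ F.card := by
  refine ⟨1 + 1 / 10 ^ 9, by norm_num, 3 * 10 ^ 25, fun n hn F h3 hl h2 hw => ?_⟩
  have key : ∀ T1 ∈ F, ∀ T2 ∈ F, T1 ≠ T2 → ∀ W : Set (Fin n), (T1 : Set (Fin n)) ⊆ W →
      (T2 : Set (Fin n)) ⊆ W → Nbr F W = ∅ → ∀ v, v ∈ W := by
    intro T1 h1 T2 h2 ne W s1 s2 e v
    have := hw {T1, T2} (by simp [insert_subset_iff, h1, h2]) (by rw [card_pair ne])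
    have hv : v ∈ cl F (({T1, T2} : Finset (Finset (Fin n))).biUnion id : Finset (Fin n)) := by
      rw [this]; trivial
    exact hv W ⟨by simpa using ⟨s1, s2⟩, e⟩
  have h : Sys F := by
    refine ⟨h3, fun e he f hf u v h1 h2 h3 h4 n => ?_, fun T1 h1 T2 h2 ne W s1 s2 c => ?_, fun v => ?_⟩
    · by_contra k
      exact n (card_le_one.1 (hl e he f hf k) u (mem_inter.2 ⟨h1, h3⟩) v (mem_inter.2 ⟨h2, h4⟩))
    · by_contra k
      have := key T1 h1 T2 h2 ne W (by simpa using s1) (by simpa using s2) (by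
        ext z
        simp only [Nbr, Set.mem_ofPred_eq, Set.mem_empty_iff_false, iff_false]
        rintro ⟨hz, x, hx, y, hy, xy, hT⟩
        exact k ⟨_, hT, x, hx, y, hy, z, hz, xy, by simp, by simp, by simp⟩)
      have e : W = univ := eq_univ_iff_forall.2 this
      rw [e, card_univ, Fintype.card_fin] at c
      omega
    · obtain ⟨T1, h1, T2, h2, ne⟩ := one_lt_card.1 h2
      have := key T1 h1 T2 h2 ne {v | ∃ T ∈ F, v ∈ T} (fun x hx => ⟨T1, h1, hx⟩)
        (fun x hx => ⟨T2, h2, hx⟩) (by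
          ext z
          simp only [Nbr, Set.mem_ofPred_eq, Set.mem_empty_iff_false, iff_false]
          rintro ⟨hz, x, hx, y, hy, xy, hT⟩
          exact hz ⟨_, hT, by simp⟩) v
      obtain ⟨T, hT, hv⟩ := this
      exact card_pos.2 ⟨T, memSt.2 ⟨hT, hv⟩⟩
  have nm : n ≤ F.card * 3 := by
    calc n = (univ : Finset (Fin n)).card * 1 := by simp
      _ ≤ ∑ v, (St F v).card := card_nsmul_le_sum _ _ _ fun v _ => h.h1 v
      _ ≤ _ := by
        rw [dc]; exact sum_le_card_nsmul _ _ _ fun T hT => by rw [univ_inter, h3 T hT]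
  have hm : 10 ^ 25 ≤ F.card := by omega
  set m := F.card with hmF
  have D1 := Nat.sqrt_le (7 * m)
  have D2 := Nat.lt_succ_sqrt (7 * m)
  have hD : ∀ v, (St F v).card ≤ Nat.sqrt (7 * m) := fun v => Nat.le_sqrt.2 (deg_le h v)
  generalize Nat.sqrt (7 * m) = D at *
  have D3 : 10 ^ 12 * D ≤ m := by
    by_contra k
    push Not at k
    have : m * m < (10 ^ 12 * D) * (10 ^ 12 * D) := Nat.mul_lt_mul'' k k
    nlinarith
  have D4 : 6 * m ≤ D * D := by rw [Nat.succ_eq_add_one] at D2; nlinarith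
  have D5 : 1200 ≤ D := by nlinarith
  have t1 : 300 * (D / 300) ≤ D := by omega
  obtain ⟨a, b, r, H, e, i0, i1, i2, i3⟩ := ineq h (t := D / 300) hD (by nlinarith) (by omega)
  rw [Fintype.card_fin] at i1
  exact arith n m D (D / 300 : ℕ) a b r H (by exact_mod_cast hm) (by exact_mod_cast D1)
    (by exact_mod_cast D4) (by exact_mod_cast D3) (by exact_mod_cast (by omega : 0 < D))
    (by exact_mod_cast t1) (by exact_mod_cast (by omega : D ≤ 400 * (D / 300))) (by positivity)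
    (by positivity) (by positivity) (by positivity) (by exact_mod_cast e) (by exact_mod_cast i0)
    (by exact_mod_cast i1) (by exact_mod_cast i2) (by exact_mod_cast i3)

end Pool.Agent.Results.MP_9978f8_co.Lower
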